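import Pool.Agent.Helper14.LE.St

/-!
# Project LE (MP_58b586_gt), module SMN: a trajectory meets a transverse segment at most once
-/

set_option autoImplicit false

namespace Pool.Agent.Helper41.LE

open Pool.Agent.Helper14.LK Pool.Agent.Helper14.LE
open scoped ContDiff Topology
open MeasureTheory Set Filter

private theorem exit_all {E : Type} [NormedAddCommGroup E] [NormedSpace ℝ E]
    {V : E → ℂ → ℂ} {Φ : E → ℝ → ℂ → ℂ} {R : ℝ} (hΦ : PFl V Φ) {p : E}
    (hG : Good Φ R p)
    (hst : ∀ z s, (∀ r ∈ Set.uIcc 0 s, R ≤ ‖Φ p r z‖) → Φ p s z = z + s) (z : ℂ) :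
    ∃ T : ℝ, 0 ≤ T ∧ (Φ p (-T) z).re ≤ -R := by
  by_cases h1 : ∃ T₁ : ℝ, 0 ≤ T₁ ∧ ‖Φ p (-T₁) z‖ ≤ R
  · obtain ⟨T₁, hT₁, h2⟩ := h1
    obtain ⟨T₂, hT₂, h3⟩ := hG _ h2
    refine ⟨T₂ + T₁, by positivity, ?_⟩
    rw [neg_add, hΦ.add]
    exact h3
  · push Not at h1
    have h2 : ∀ T : ℝ, 0 ≤ T → Φ p (-T) z = z + ((-T : ℝ) : ℂ) := by
      intro T hT
      apply hst
      intro r hr
      rw [Set.mem_uIcc] at hr
      have hr0 : r ≤ 0 := by
        rcases hr with hr | hr
        · linarith [hr.1, hr.2]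
        · exact hr.2
      have h3 := h1 (-r) (by linarith)
      rw [neg_neg] at h3
      exact h3.le
    refine ⟨max 0 (z.re + R), le_max_left _ _, ?_⟩
    rw [h2 _ (le_max_left _ _), Complex.add_re, Complex.ofReal_re]
    linarith [le_max_right 0 (z.re + R)]

theorem hSMN (hPFL : StPFL) : StSMN := by
  intro E _ _ _ V Φ R hV hΦ p hG
  obtain ⟨-, hP⟩ := hPFL E V R hV
  obtain ⟨-, hst, hleft, -, -, -, -, hVD, hD⟩ := hP Φ hΦ
  have hall := exit_all hΦ hG (hst p)
  refine ⟨hall, ?_⟩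
  -- to the left of `-R` backward motion is straight
  have hL : ∀ (z : ℂ) (t t' : ℝ), t ≤ t' → (Φ p (-t) z).re ≤ -R →
      Φ p (-t') z = Φ p (-t) z + ((-(t' - t) : ℝ) : ℂ) := by
    intro z t t' htt h
    have e : -t' = -(t' - t) + -t := by ring
    rw [e, hΦ.add]
    exact hleft p _ _ h (by linarith)
  choose T hT0 hT using hall
  let h : ℂ → ℝ := fun z => (Φ p (-T z) z).im
  have hh : ∀ (z : ℂ) (t : ℝ), (Φ p (-t) z).re ≤ -R → (Φ p (-t) z).im = h z := by
    intro z t ht
    rcases le_total t (T z) with h1 | h1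
    · have h2 := congrArg Complex.im (hL z t (T z) h1 ht)
      rw [Complex.add_im, Complex.ofReal_im, add_zero] at h2
      exact h2.symm
    · have h2 := congrArg Complex.im (hL z (T z) t h1 (hT z))
      rw [Complex.add_im, Complex.ofReal_im, add_zero] at h2
      exact h2
  have hinv : ∀ (s : ℝ) (z : ℂ), h (Φ p s z) = h z := by
    intro s z
    have e : Φ p (-T (Φ p s z)) (Φ p s z) = Φ p (-(T (Φ p s z) - s)) z := by
      rw [← hΦ.add]
      congr 1
      ring
    have h1 := hT (Φ p s z)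
    rw [e] at h1
    have h2 := hh z _ h1
    rw [← e] at h2
    exact h2
  -- differentiability of `Φ p s`
  have hdiff : ∀ s : ℝ, Differentiable ℝ (Φ p s) := by
    intro s
    have h1 : ContDiff ℝ ∞ (fun z : ℂ => Φ p s z) :=
      hΦ.smooth.comp (contDiff_const.prodMk (contDiff_const.prodMk contDiff_id) :
        ContDiff ℝ ∞ fun z : ℂ => ((p, s, z) : E × ℝ × ℂ))
    exact h1.differentiable (by simp)
  intro z₀ w a b hpos
  have hder : ∀ r : ℝ, ∃ d : ℝ, HasDerivAt (fun r : ℝ => h (z₀ + (r : ℂ) * w)) d r ∧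
      (0 < ar (V p (z₀ + (r : ℂ) * w)) w → 0 < d) := by
    intro r
    let z : ℂ := z₀ + (r : ℂ) * w
    let t : ℝ := T z + 1
    have h1 : Φ p (-t) z = Φ p (-T z) z + ((-(t - T z) : ℝ) : ℂ) :=
      hL z (T z) t (by linarith) (hT z)
    have h2 : (Φ p (-t) z).re ≤ -R - 1 := by
      rw [h1, Complex.add_re, Complex.ofReal_re]
      have h3 := hT z
      have h4 : t - T z = 1 := by
        change T z + 1 - T z = 1
        ring
      rw [h4]
      linarith
    have hcont : ContinuousAt (fun z' : ℂ => (Φ p (-t) z').re) z :=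
      (Complex.continuous_re.comp (hdiff (-t)).continuous).continuousAt
    have hev : ∀ᶠ z' in 𝓝 z, h z' = (Φ p (-t) z').im := by
      have h5 : ∀ᶠ z' in 𝓝 z, (Φ p (-t) z').re < -R :=
        hcont.eventually_lt continuousAt_const (by linarith)
      filter_upwards [h5] with z' hz'
      exact (hh z' t hz'.le).symm
    have hline : HasDerivAt (fun r : ℝ => z₀ + (r : ℂ) * w) w r := by
      have h6 : HasDerivAt (fun r : ℝ => (r : ℂ)) 1 r := Complex.ofRealCLM.hasDerivAt
      have h7 := (h6.mul_const w).const_add z₀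
      rw [one_mul] at h7
      exact h7
    have hfd := (hdiff (-t) z).hasFDerivAt
    have hcomp : HasDerivAt (fun r : ℝ => Φ p (-t) (z₀ + (r : ℂ) * w))
        (fderiv ℝ (Φ p (-t)) z w) r := hfd.comp_hasDerivAt r hline
    have him : HasDerivAt (fun r : ℝ => (Φ p (-t) (z₀ + (r : ℂ) * w)).im)
        (fderiv ℝ (Φ p (-t)) z w).im r := Complex.imCLM.hasFDerivAt.comp_hasDerivAt r hcomp
    refine ⟨(fderiv ℝ (Φ p (-t)) z w).im, ?_, ?_⟩
    · refine him.congr_of_eventuallyEq ?_
      exact hline.continuousAt.eventually hev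
    · intro h8
      obtain ⟨D, hD0, hD1⟩ := hD p (-t) z
      have h9 := hD1 (V p z) w
      rw [hVD] at h9
      have h10 : V p (Φ p (-t) z) = 1 := by
        apply hV.far
        have h11 := Complex.abs_re_le_norm (Φ p (-t) z)
        have h12 := neg_le_abs (Φ p (-t) z).re
        have h13 := hV.pos
        linarith
      rw [h10] at h9
      have h14 : ar 1 (fderiv ℝ (Φ p (-t)) z w) = (fderiv ℝ (Φ p (-t)) z w).im := by
        unfold ar
        rw [Complex.one_re, Complex.one_im]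
        ring
      rw [h14] at h9
      rw [h9]
      exact mul_pos hD0 h8
  have hmono : StrictMonoOn (fun r : ℝ => h (z₀ + (r : ℂ) * w)) (Set.Icc a b) := by
    apply strictMonoOn_of_deriv_pos (convex_Icc a b)
    · intro r _
      obtain ⟨d, hd, -⟩ := hder r
      exact hd.continuousAt.continuousWithinAt
    · intro r hr
      obtain ⟨d, hd, hd0⟩ := hder r
      rw [hd.deriv]
      exact hd0 (hpos r (interior_subset hr))
  intro r₁ hr₁ r₂ hr₂ s hs
  have h1 : h (z₀ + (r₁ : ℂ) * w) = h (z₀ + (r₂ : ℂ) * w) := by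
    rw [← hs, hinv]
  have h2 : r₁ = r₂ := hmono.injOn hr₁ hr₂ h1
  rw [← h2] at hs
  by_contra hs0
  generalize z₀ + (r₁ : ℂ) * w = z₁ at hs
  have hs' : Φ p (-s) z₁ = z₁ := by
    have h3 := hΦ.add p (-s) s z₁
    rw [neg_add_cancel, hΦ.zero, hs] at h3
    exact h3.symm
  have hper : Φ p (-|s|) z₁ = z₁ := by
    rcases abs_choice s with h3 | h3
    · rw [h3]
      exact hs'
    · rw [h3, neg_neg]
      exact hs
  have hper2 : ∀ m : ℕ, Φ p (-((m : ℝ) * |s|)) z₁ = z₁ := by
    intro m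
    induction m with
    | zero =>
      rw [Nat.cast_zero, zero_mul, neg_zero, hΦ.zero]
    | succ m ih =>
      have e : -(((m + 1 : ℕ) : ℝ) * |s|) = -|s| + -((m : ℝ) * |s|) := by
        push_cast
        ring
      rw [e, hΦ.add, ih, hper]
  have hspos : 0 < |s| := abs_pos.mpr hs0
  obtain ⟨m, hm⟩ := exists_nat_ge (T z₁ / |s|)
  have hm1 : T z₁ ≤ (m : ℝ) * |s| := (div_le_iff₀ hspos).mp hm
  have hm2 : T z₁ ≤ ((m + 1 : ℕ) : ℝ) * |s| := by
    push_cast
    nlinarith
  have e1 := hL z₁ (T z₁) _ hm1 (hT z₁)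
  have e2 := hL z₁ (T z₁) _ hm2 (hT z₁)
  rw [hper2] at e1 e2
  have e3 := congrArg Complex.re e1
  have e4 := congrArg Complex.re e2
  rw [Complex.add_re, Complex.ofReal_re] at e3 e4
  push_cast at e4
  nlinarith

end Pool.Agent.Helper41.LE
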